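import Pool.Agent.BEW.StmtsS

/-!
# Squad BEW (MP_be01ff_an), row SBS: the sine basis (proof: helper49)
-/

set_option autoImplicit false

namespace Pool.Agent.BEW.H49

open Set Filter Topology MeasureTheory
open scoped InnerProductSpace ENNReal NNReal ContDiff

/-- `∫_0^π cos (jx) dx = 0` for a nonzero integer `j`. -/
theorem int_cos (j : ℤ) (hj : j ≠ 0) : (∫ x in (0 : ℝ)..Real.pi, Real.cos ((j : ℝ) * x)) = 0 := by
  have hj' : (j : ℝ) ≠ 0 := by exact_mod_cast hj
  rw [intervalIntegral.integral_comp_mul_left (fun x => Real.cos x) hj', integral_cos, mul_zero,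
    Real.sin_zero, Real.sin_int_mul_pi, sub_zero, smul_zero]

/-- Orthogonality of the sines. -/
theorem int_sin_sin (k l : ℕ) :
    (∫ x in (0 : ℝ)..Real.pi, Real.sin (((k : ℝ) + 1) * x) * Real.sin (((l : ℝ) + 1) * x)) =
      if k = l then Real.pi / 2 else 0 := by
  have h1 : (∫ x in (0 : ℝ)..Real.pi, Real.sin (((k : ℝ) + 1) * x) * Real.sin (((l : ℝ) + 1) * x)) =
      ∫ x in (0 : ℝ)..Real.pi, ((1 / 2) * Real.cos ((((k : ℤ) - l : ℤ) : ℝ) * x) -
        (1 / 2) * Real.cos ((((k : ℤ) + l + 2 : ℤ) : ℝ) * x)) := by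
    refine intervalIntegral.integral_congr fun x _ => ?_
    show Real.sin (((k : ℝ) + 1) * x) * Real.sin (((l : ℝ) + 1) * x) =
      ((1 / 2) * Real.cos ((((k : ℤ) - l : ℤ) : ℝ) * x) -
        (1 / 2) * Real.cos ((((k : ℤ) + l + 2 : ℤ) : ℝ) * x))
    have e1 : (((k : ℤ) - l : ℤ) : ℝ) * x = ((k : ℝ) + 1) * x - ((l : ℝ) + 1) * x := by
      push_cast; ring
    have e2 : (((k : ℤ) + l + 2 : ℤ) : ℝ) * x = ((k : ℝ) + 1) * x + ((l : ℝ) + 1) * x := by
      push_cast; ring
    rw [e1, e2, Real.cos_sub, Real.cos_add]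
    ring
  have hc : ∀ c : ℝ, Continuous fun x => (1 / 2) * Real.cos (c * x) := fun c =>
    continuous_const.mul (Real.continuous_cos.comp (continuous_const.mul continuous_id))
  rw [h1, intervalIntegral.integral_sub ((hc _).intervalIntegrable _ _)
    ((hc _).intervalIntegrable _ _), intervalIntegral.integral_const_mul,
    intervalIntegral.integral_const_mul, int_cos ((k : ℤ) + l + 2) (by positivity), mul_zero,
    sub_zero]
  by_cases hkl : k = l
  · rw [if_pos hkl, hkl]
    simp only [sub_self, Int.cast_zero, zero_mul, Real.cos_zero]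
    rw [intervalIntegral.integral_const, smul_eq_mul, mul_one, sub_zero]
    ring
  · rw [if_neg hkl, int_cos ((k : ℤ) - l) (by omega), mul_zero]

/-- The weight. -/
noncomputable def wt (d : ℕ) (β : ℝ) (r : ℝ) : ℝ :=
  (r / β) ^ (-(((d : ℝ) - 1) / 2)) * Real.sqrt (2 / Real.pi)

theorem sg_eq (d : ℕ) (β : ℝ) (k : ℕ) (r : ℝ) :
    sg d β k r = wt d β r * Real.sin (((k : ℝ) + 1) * (r - β)) := by
  unfold sg wt
  ring

theorem wt_meas (d : ℕ) (β : ℝ) : Measurable (wt d β) := by
  unfold wt
  exact ((measurable_id.div_const β).pow_const _).mul_const _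

theorem sg_meas (d : ℕ) (β : ℝ) (k : ℕ) : Measurable (sg d β k) := by
  have : sg d β k = fun r => wt d β r * Real.sin (((k : ℝ) + 1) * (r - β)) := by
    funext r
    exact sg_eq d β k r
  rw [this]
  exact (wt_meas d β).mul (Real.measurable_sin.comp
    (measurable_const.mul (measurable_id.sub_const β)))

theorem wt_pos (d : ℕ) (β : ℝ) (hβ : 0 < β) (r : ℝ) (hr : r ∈ Ioo β (β + Real.pi)) :
    0 < wt d β r := by
  unfold wt
  have h1 : 0 < r / β := div_pos (hβ.trans hr.1) hβ
  have h2 := Real.pi_pos
  positivity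

theorem wt_le (d : ℕ) (β : ℝ) (hd : 2 ≤ d) (hβ : 0 < β) (r : ℝ) (hr : r ∈ Ioo β (β + Real.pi)) :
    |wt d β r| ≤ Real.sqrt (2 / Real.pi) := by
  rw [abs_of_pos (wt_pos d β hβ r hr)]
  unfold wt
  have h1 : 1 ≤ r / β := by
    rw [one_le_div hβ]
    exact hr.1.le
  have hd' : (2 : ℝ) ≤ d := by exact_mod_cast hd
  have h2 : (r / β) ^ (-(((d : ℝ) - 1) / 2)) ≤ 1 :=
    Real.rpow_le_one_of_one_le_of_nonpos h1 (by linarith)
  have h3 := Real.sqrt_nonneg (2 / Real.pi)
  nlinarith

/-- The weights cancel. -/
theorem wt_sq (d : ℕ) (β : ℝ) (hd : 2 ≤ d) (hβ : 0 < β) (r : ℝ) (hr : r ∈ Ioo β (β + Real.pi)) :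
    wt d β r * wt d β r * (r / β) ^ (d - 1) = 2 / Real.pi := by
  unfold wt
  have h1 : 0 < r / β := div_pos (hβ.trans hr.1) hβ
  have h2 : (0 : ℝ) ≤ 2 / Real.pi := by
    have := Real.pi_pos
    positivity
  have h3 : (r / β) ^ (d - 1) = (r / β) ^ ((d : ℝ) - 1) := by
    rw [← Real.rpow_natCast, Nat.cast_sub (by omega : 1 ≤ d), Nat.cast_one]
  have h4 : (r / β) ^ (-(((d : ℝ) - 1) / 2)) * (r / β) ^ (-(((d : ℝ) - 1) / 2)) *
      (r / β) ^ ((d : ℝ) - 1) = 1 := by
    rw [← Real.rpow_add h1, ← Real.rpow_add h1]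
    have : -(((d : ℝ) - 1) / 2) + -(((d : ℝ) - 1) / 2) + ((d : ℝ) - 1) = 0 := by ring
    rw [this, Real.rpow_zero]
  have h5 : Real.sqrt (2 / Real.pi) * Real.sqrt (2 / Real.pi) = 2 / Real.pi :=
    Real.mul_self_sqrt h2
  rw [h3]
  calc _ = ((r / β) ^ (-(((d : ℝ) - 1) / 2)) * (r / β) ^ (-(((d : ℝ) - 1) / 2)) *
      (r / β) ^ ((d : ℝ) - 1)) * (Real.sqrt (2 / Real.pi) * Real.sqrt (2 / Real.pi)) := by ring
    _ = 2 / Real.pi := by rw [h4, h5, one_mul]

theorem sbs (nuf : NufStmt) : SbsStmt := by
  intro d β hd hβ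
  obtain ⟨hfin, -, hae, -, hint⟩ := nuf d β hβ
  haveI := hfin
  have hpi := Real.pi_pos
  -- the sines are in `L²`
  have hmem : ∀ k, MemLp (sg d β k) 2 (nu d β) := by
    intro k
    refine MemLp.of_bound (sg_meas d β k).aestronglyMeasurable (Real.sqrt (2 / Real.pi)) ?_
    filter_upwards [hae] with r hr
    rw [sg_eq, Real.norm_eq_abs, abs_mul]
    have h1 := wt_le d β hd hβ r hr
    have h2 := Real.abs_sin_le_one (((k : ℝ) + 1) * (r - β))
    have h3 := abs_nonneg (wt d β r)
    have h4 := abs_nonneg (Real.sin (((k : ℝ) + 1) * (r - β)))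
    nlinarith
  set s : ℕ → Lp ℝ 2 (nu d β) := fun k => (hmem k).toLp (sg d β k) with hs
  have hsae : ∀ k, s k =ᵐ[nu d β] sg d β k := fun k => (hmem k).coeFn_toLp
  have hinner : ∀ (f : Lp ℝ 2 (nu d β)) (k : ℕ), ⟪s k, f⟫_ℝ =
      ∫ r, sg d β k r * f r ∂(nu d β) := by
    intro f k
    rw [L2.inner_def]
    refine integral_congr_ae ?_
    filter_upwards [hsae k] with r hr
    rw [hr]
    simp only [RCLike.inner_apply, conj_trivial]
    ring
  have horth : Orthonormal ℝ s := by
    rw [orthonormal_iff_ite]
    intro k l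
    rw [hinner]
    have h1 : (∫ r, sg d β k r * (s l) r ∂(nu d β)) = ∫ r, sg d β k r * sg d β l r ∂(nu d β) := by
      refine integral_congr_ae ?_
      filter_upwards [hsae l] with r hr
      rw [hr]
    rw [h1, hint]
    have h2 : (∫ r in Ioo β (β + Real.pi), sg d β k r * sg d β l r * (r / β) ^ (d - 1)) =
        ∫ r in Ioo β (β + Real.pi), (2 / Real.pi) *
          (Real.sin (((k : ℝ) + 1) * (r - β)) * Real.sin (((l : ℝ) + 1) * (r - β))) := by
      refine setIntegral_congr_fun measurableSet_Ioo fun r hr => ?_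
      show sg d β k r * sg d β l r * (r / β) ^ (d - 1) = (2 / Real.pi) *
          (Real.sin (((k : ℝ) + 1) * (r - β)) * Real.sin (((l : ℝ) + 1) * (r - β)))
      rw [← wt_sq d β hd hβ r hr, sg_eq, sg_eq]
      ring
    rw [h2, ← integral_Ioc_eq_integral_Ioo, ← intervalIntegral.integral_of_le (by linarith),
      intervalIntegral.integral_const_mul,
      intervalIntegral.integral_comp_sub_right
        (fun x => Real.sin (((k : ℝ) + 1) * x) * Real.sin (((l : ℝ) + 1) * x)) β, sub_self]
    have h3 : β + Real.pi - β = Real.pi := by ring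
    rw [h3, int_sin_sin]
    split_ifs with hkl
    · field_simp
    · rw [mul_zero]
  have hcomp : (Submodule.span ℝ (Set.range s))ᗮ = ⊥ := by
    rw [Submodule.eq_bot_iff]
    intro f hf
    have hf0 : ∀ k, ∫ r, sg d β k r * f r ∂(nu d β) = 0 := by
      intro k
      rw [← hinner]
      exact (Submodule.mem_orthogonal _ _).mp hf (s k) (Submodule.subset_span ⟨k, rfl⟩)
    -- the function `H = w f` is integrable
    have hfi : Integrable (fun r => f r) (nu d β) :=
      (Lp.memLp f).integrable (by norm_num)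
    set Hf : ℝ → ℝ := fun r => wt d β r * f r with hHf
    have hHi : Integrable Hf (nu d β) := by
      refine hfi.bdd_mul (c := Real.sqrt (2 / Real.pi)) (wt_meas d β).aestronglyMeasurable ?_
      filter_upwards [hae] with r hr
      rw [Real.norm_eq_abs]
      exact wt_le d β hd hβ r hr
    have hbd : ∀ (g : ℝ → ℝ) (C : ℝ), Measurable g → (∀ r, |g r| ≤ C) →
        Integrable (fun r => Hf r * g r) (nu d β) := by
      intro g C hg hC
      exact hHi.mul_bdd (c := C) hg.aestronglyMeasurable (Filter.Eventually.of_forall fun r => by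
        rw [Real.norm_eq_abs]; exact hC r)
    have hmsin : ∀ k : ℕ, Measurable fun r : ℝ => Real.sin ((k : ℝ) * (r - β)) := fun k =>
      Real.measurable_sin.comp (measurable_const.mul (measurable_id.sub_const β))
    have hmcos : Measurable fun r : ℝ => Real.cos (r - β) :=
      Real.measurable_cos.comp (measurable_id.sub_const β)
    -- all the integrals against `sin (k x) cos(x)^j` vanish
    have hall : ∀ j k : ℕ, ∫ r, Hf r * (Real.sin ((k : ℝ) * (r - β)) * Real.cos (r - β) ^ j)
        ∂(nu d β) = 0 := by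
      intro j
      induction j with
      | zero =>
        intro k
        rcases Nat.eq_zero_or_pos k with hk | hk
        · rw [hk]
          simp
        · obtain ⟨k, rfl⟩ := Nat.exists_eq_succ_of_ne_zero (by omega : k ≠ 0)
          rw [← hf0 k]
          refine integral_congr_ae (Filter.Eventually.of_forall fun r => ?_)
          show wt d β r * f r * (Real.sin (((k + 1 : ℕ) : ℝ) * (r - β)) * Real.cos (r - β) ^ 0) =
            sg d β k r * f r
          rw [sg_eq]
          push_cast
          ring
      | succ j ih =>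
        intro k
        have hi : ∀ k : ℕ, Integrable (fun r => Hf r * (Real.sin ((k : ℝ) * (r - β)) *
            Real.cos (r - β) ^ j)) (nu d β) := by
          intro k
          refine hbd _ 1 ((hmsin k).mul (hmcos.pow_const j)) fun r => ?_
          rw [abs_mul, abs_pow]
          have h1 := Real.abs_sin_le_one ((k : ℝ) * (r - β))
          have h2 : |Real.cos (r - β)| ^ j ≤ 1 := pow_le_one₀ (abs_nonneg _)
            (Real.abs_cos_le_one _)
          exact mul_le_one₀ h1 (by positivity) h2
        rcases Nat.eq_zero_or_pos k with hk | hk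
        · rw [hk]
          simp
        · obtain ⟨k, rfl⟩ := Nat.exists_eq_succ_of_ne_zero (by omega : k ≠ 0)
          have h1 : (∫ r, Hf r * (Real.sin (((k + 1 : ℕ) : ℝ) * (r - β)) *
              Real.cos (r - β) ^ (j + 1)) ∂(nu d β)) =
              ∫ r, ((1 / 2) * (Hf r * (Real.sin (((k + 2 : ℕ) : ℝ) * (r - β)) *
                Real.cos (r - β) ^ j)) + (1 / 2) * (Hf r * (Real.sin ((k : ℝ) * (r - β)) *
                Real.cos (r - β) ^ j))) ∂(nu d β) := by
            refine integral_congr_ae (Filter.Eventually.of_forall fun r => ?_)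
            show Hf r * (Real.sin (((k + 1 : ℕ) : ℝ) * (r - β)) * Real.cos (r - β) ^ (j + 1)) =
              ((1 / 2) * (Hf r * (Real.sin (((k + 2 : ℕ) : ℝ) * (r - β)) *
                Real.cos (r - β) ^ j)) + (1 / 2) * (Hf r * (Real.sin ((k : ℝ) * (r - β)) *
                Real.cos (r - β) ^ j)))
            have e1 : ((k + 2 : ℕ) : ℝ) * (r - β) = ((k + 1 : ℕ) : ℝ) * (r - β) + (r - β) := by
              push_cast; ring
            have e2 : (k : ℝ) * (r - β) = ((k + 1 : ℕ) : ℝ) * (r - β) - (r - β) := by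
              push_cast; ring
            have key : ∀ A B : ℝ, Real.sin A * Real.cos B =
                (1 / 2) * Real.sin (A + B) + (1 / 2) * Real.sin (A - B) := by
              intro A B
              rw [Real.sin_add, Real.sin_sub]
              ring
            rw [e1, e2, pow_succ]
            linear_combination (Hf r * Real.cos (r - β) ^ j) *
              key (((k + 1 : ℕ) : ℝ) * (r - β)) (r - β)
          rw [h1, integral_add ((hi (k + 2)).const_mul _) ((hi k).const_mul _),
            integral_const_mul, integral_const_mul, ih, ih, mul_zero, add_zero]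
    -- against `sin x p(cos x)`
    have hsin1 : Measurable fun r : ℝ => Real.sin (r - β) :=
      Real.measurable_sin.comp (measurable_id.sub_const β)
    have hpoly : ∀ p : Polynomial ℝ, Integrable (fun r => Hf r * (Real.sin (r - β) *
        p.eval (Real.cos (r - β)))) (nu d β) ∧
        ∫ r, Hf r * (Real.sin (r - β) * p.eval (Real.cos (r - β))) ∂(nu d β) = 0 := by
      intro p
      induction p using Polynomial.induction_on' with
      | add p q hp hq =>
        have h1 : (fun r => Hf r * (Real.sin (r - β) * (p + q).eval (Real.cos (r - β)))) =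
            fun r => Hf r * (Real.sin (r - β) * p.eval (Real.cos (r - β))) +
              Hf r * (Real.sin (r - β) * q.eval (Real.cos (r - β))) := by
          funext r
          rw [Polynomial.eval_add]
          ring
        rw [h1]
        refine ⟨hp.1.add hq.1, ?_⟩
        rw [integral_add hp.1 hq.1, hp.2, hq.2, add_zero]
      | monomial n a =>
        have h1 : (fun r => Hf r * (Real.sin (r - β) *
            (Polynomial.monomial n a).eval (Real.cos (r - β)))) =
            fun r => a * (Hf r * (Real.sin (((1 : ℕ) : ℝ) * (r - β)) * Real.cos (r - β) ^ n)) := by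
          funext r
          rw [Polynomial.eval_monomial, Nat.cast_one, one_mul]
          ring
        rw [h1]
        refine ⟨?_, ?_⟩
        · refine (hbd _ 1 ((hmsin 1).mul (hmcos.pow_const n)) fun r => ?_).const_mul a
          show |Real.sin (((1 : ℕ) : ℝ) * (r - β)) * Real.cos (r - β) ^ n| ≤ 1
          rw [abs_mul, abs_pow]
          have h1 := Real.abs_sin_le_one (((1 : ℕ) : ℝ) * (r - β))
          have h2 : |Real.cos (r - β)| ^ n ≤ 1 := pow_le_one₀ (abs_nonneg _)
            (Real.abs_cos_le_one _)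
          exact mul_le_one₀ h1 (by positivity) h2
        · rw [integral_const_mul, hall, mul_zero]
    -- conclusion
    have hG : Integrable (fun r => Hf r * Real.sin (r - β)) (nu d β) :=
      hbd _ 1 hsin1 fun r => Real.abs_sin_le_one _
    have hzero : ∀ᵐ r ∂(nu d β), Hf r * Real.sin (r - β) = 0 := by
      refine ae_eq_zero_of_integral_contDiff_smul_eq_zero hG.locallyIntegrable ?_
      intro g hg hgs
      have hgc : Continuous g := hg.continuous
      obtain ⟨C, hC⟩ := hgc.bounded_above_of_compact_support hgs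
      have hgi : Integrable (fun r => Hf r * Real.sin (r - β) * g r) (nu d β) :=
        hG.mul_bdd (c := C) hgc.measurable.aestronglyMeasurable
          (Filter.Eventually.of_forall hC)
      set I : ℝ := ∫ r, |Hf r * Real.sin (r - β)| ∂(nu d β) with hI
      have hI0 : 0 ≤ I := integral_nonneg fun _ => abs_nonneg _
      have hkey : ∀ ε : ℝ, 0 < ε → |∫ r, Hf r * Real.sin (r - β) * g r ∂(nu d β)| ≤ ε * I := by
        intro ε hε
        obtain ⟨p, hp⟩ := exists_polynomial_near_of_continuousOn (-1) 1
          (fun t => g (β + Real.arccos t))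
          ((hgc.comp (continuous_const.add Real.continuous_arccos)).continuousOn) ε hε
        obtain ⟨hpi1, hpi0⟩ := hpoly p
        have h1 : (∫ r, Hf r * Real.sin (r - β) * g r ∂(nu d β)) =
            ∫ r, (Hf r * Real.sin (r - β) * g r -
              Hf r * (Real.sin (r - β) * p.eval (Real.cos (r - β)))) ∂(nu d β) := by
          rw [integral_sub hgi hpi1, hpi0, sub_zero]
        rw [h1, hI, ← integral_const_mul]
        refine (abs_integral_le_integral_abs).trans ?_
        refine integral_mono_ae (hgi.sub hpi1).abs (hG.abs.const_mul ε) ?_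
        filter_upwards [hae] with r hr
        have e1 : Real.arccos (Real.cos (r - β)) = r - β :=
          Real.arccos_cos (by linarith [hr.1]) (by linarith [hr.2])
        have e2 := hp (Real.cos (r - β)) ⟨Real.neg_one_le_cos _, Real.cos_le_one _⟩
        simp only [e1] at e2
        have e3 : β + (r - β) = r := by ring
        rw [e3] at e2
        have e4 : Hf r * Real.sin (r - β) * g r -
            Hf r * (Real.sin (r - β) * p.eval (Real.cos (r - β))) =
            -((p.eval (Real.cos (r - β)) - g r) * (Hf r * Real.sin (r - β))) := by ring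
        show |Hf r * Real.sin (r - β) * g r -
            Hf r * (Real.sin (r - β) * p.eval (Real.cos (r - β)))| ≤ ε * |Hf r * Real.sin (r - β)|
        rw [e4, abs_neg, abs_mul]
        exact mul_le_mul_of_nonneg_right e2.le (abs_nonneg _)
      have h0 : |∫ r, Hf r * Real.sin (r - β) * g r ∂(nu d β)| = 0 := by
        refine le_antisymm (le_of_forall_pos_le_add fun ε hε => ?_) (abs_nonneg _)
        have h1 := hkey (ε / (I + 1)) (by positivity)
        have h2 : ε / (I + 1) * I ≤ ε := by
          rw [div_mul_eq_mul_div, div_le_iff₀ (by positivity)]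
          nlinarith
        linarith
      have h1 := abs_eq_zero.mp h0
      rw [← h1]
      refine integral_congr_ae (Filter.Eventually.of_forall fun r => ?_)
      show g r • (Hf r * Real.sin (r - β)) = Hf r * Real.sin (r - β) * g r
      rw [smul_eq_mul]
      ring
    refine Lp.ext ?_
    filter_upwards [hzero, hae, Lp.coeFn_zero ℝ 2 (nu d β)] with r h1 h2 h3
    rw [h3]
    have e1 := wt_pos d β hβ r h2
    have e2 : 0 < Real.sin (r - β) :=
      Real.sin_pos_of_pos_of_lt_pi (by linarith [h2.1]) (by linarith [h2.2])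
    rcases mul_eq_zero.mp h1 with h4 | h4
    · rcases mul_eq_zero.mp h4 with h5 | h5
      · exact absurd h5 e1.ne'
      · exact h5
    · exact absurd h4 e2.ne'
  refine ⟨HilbertBasis.mkOfOrthogonalEqBot horth hcomp, fun k => ?_⟩
  rw [HilbertBasis.coe_mkOfOrthogonalEqBot]
  exact hsae k

end Pool.Agent.BEW.H49
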