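import Pool.Agent.BEW.StmtsS

/-!
# Squad BEW (MP_be01ff_an), row SIN: integrals of powers of the sine (proof: helper49)
-/

set_option autoImplicit false

namespace Pool.Agent.BEW.H49

open Set MeasureTheory

/-- `K_n = ∫_0^π (sin x)^al cos(2nx) dx`. -/
noncomputable def Kn (al : ℝ) (n : ℕ) : ℝ :=
  ∫ x in (0 : ℝ)..Real.pi, Real.sin x ^ al * Real.cos (2 * (n : ℝ) * x)

theorem cont_pow (al : ℝ) (h : 0 ≤ al) : Continuous fun x => Real.sin x ^ al :=
  Real.continuous_sin.rpow_const (fun _ => Or.inr h)

theorem cont_K (al : ℝ) (h : 0 ≤ al) (c : ℝ) :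
    Continuous fun x => Real.sin x ^ al * Real.cos (c * x) :=
  (cont_pow al h).mul (Real.continuous_cos.comp (continuous_const.mul continuous_id))

theorem Kn_rec (al : ℝ) (h : 0 < al) (n : ℕ) :
    Kn al (n + 1) * (2 * n + 2 + al) = Kn al n * (2 * n - al) := by
  have hd : ∀ x ∈ uIcc (0 : ℝ) Real.pi,
      HasDerivAt (fun x => Real.sin x ^ (al + 1) * Real.cos ((2 * (n : ℝ) + 1) * x))
        (((al - 2 * n) / 2) * (Real.sin x ^ al * Real.cos (2 * (n : ℝ) * x)) +
          ((2 * n + 2 + al) / 2) * (Real.sin x ^ al * Real.cos (2 * ((n + 1 : ℕ) : ℝ) * x))) x := by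
    intro x hx
    rw [uIcc_of_le Real.pi_pos.le] at hx
    have hs : 0 ≤ Real.sin x := Real.sin_nonneg_of_nonneg_of_le_pi hx.1 hx.2
    have h1 : HasDerivAt (fun x => Real.sin x ^ (al + 1))
        (Real.cos x * (al + 1) * Real.sin x ^ (al + 1 - 1)) x :=
      (Real.hasDerivAt_sin x).rpow_const (Or.inr (by linarith))
    have h2 : HasDerivAt (fun x => Real.cos ((2 * (n : ℝ) + 1) * x))
        (-Real.sin ((2 * (n : ℝ) + 1) * x) * (2 * (n : ℝ) + 1)) x := by
      have h3 : HasDerivAt (fun x : ℝ => (2 * (n : ℝ) + 1) * x) (2 * (n : ℝ) + 1) x := by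
        simpa using (hasDerivAt_id x).const_mul (2 * (n : ℝ) + 1)
      exact h3.cos
    have h4 := h1.mul h2
    refine h4.congr_deriv ?_
    have e1 : al + 1 - 1 = al := by ring
    have e2 : Real.sin x ^ (al + 1) = Real.sin x ^ al * Real.sin x :=
      Real.rpow_add_one' hs (by linarith)
    have e3 : 2 * (n : ℝ) * x = (2 * (n : ℝ) + 1) * x - x := by ring
    have e4 : 2 * ((n + 1 : ℕ) : ℝ) * x = (2 * (n : ℝ) + 1) * x + x := by push_cast; ring
    rw [e1, e2, e3, e4, Real.cos_sub, Real.cos_add]
    ring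
  have hc0 := cont_K al h.le (2 * (n : ℝ))
  have hc1 := cont_K al h.le (2 * ((n + 1 : ℕ) : ℝ))
  have hI := intervalIntegral.integral_eq_sub_of_hasDerivAt hd
    (((hc0.const_mul _).add (hc1.const_mul _)).intervalIntegrable _ _)
  rw [intervalIntegral.integral_add ((hc0.const_mul _).intervalIntegrable _ _)
    ((hc1.const_mul _).intervalIntegrable _ _), intervalIntegral.integral_const_mul,
    intervalIntegral.integral_const_mul, Real.sin_pi, Real.sin_zero,
    Real.zero_rpow (by linarith : al + 1 ≠ 0)] at hI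
  simp only [zero_mul, sub_zero] at hI
  unfold Kn
  linarith

theorem K0_pos (al : ℝ) (h : 0 < al) : 0 < Kn al 0 := by
  unfold Kn
  refine intervalIntegral.intervalIntegral_pos_of_pos_on
    ((cont_K al h.le _).intervalIntegrable _ _) ?_ Real.pi_pos
  intro x hx
  have hs : 0 < Real.sin x := Real.sin_pos_of_pos_of_lt_pi hx.1 hx.2
  have : Real.cos (2 * ((0 : ℕ) : ℝ) * x) = 1 := by simp
  rw [this, mul_one]
  exact Real.rpow_pos_of_pos hs al

/-- `∫ sin^al sin²(nx) = (K_0 - K_n)/2`. -/
theorem int_sq (al : ℝ) (h : 0 < al) (n : ℕ) :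
    (∫ x in (0 : ℝ)..Real.pi, |Real.sin x| ^ al * Real.sin ((n : ℝ) * x) ^ 2) =
      (Kn al 0 - Kn al n) / 2 := by
  have h1 : (∫ x in (0 : ℝ)..Real.pi, |Real.sin x| ^ al * Real.sin ((n : ℝ) * x) ^ 2) =
      ∫ x in (0 : ℝ)..Real.pi, ((1 / 2) * (Real.sin x ^ al * Real.cos (2 * ((0 : ℕ) : ℝ) * x)) -
        (1 / 2) * (Real.sin x ^ al * Real.cos (2 * (n : ℝ) * x))) := by
    refine intervalIntegral.integral_congr fun x hx => ?_
    rw [uIcc_of_le Real.pi_pos.le] at hx
    have hs : 0 ≤ Real.sin x := Real.sin_nonneg_of_nonneg_of_le_pi hx.1 hx.2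
    have e1 : Real.cos (2 * ((0 : ℕ) : ℝ) * x) = 1 := by simp
    have e2 : 2 * (n : ℝ) * x = 2 * ((n : ℝ) * x) := by ring
    have e3 : Real.sin ((n : ℝ) * x) ^ 2 = 1 - Real.cos ((n : ℝ) * x) ^ 2 := Real.sin_sq _
    show |Real.sin x| ^ al * Real.sin ((n : ℝ) * x) ^ 2 =
      ((1 / 2) * (Real.sin x ^ al * Real.cos (2 * ((0 : ℕ) : ℝ) * x)) -
        (1 / 2) * (Real.sin x ^ al * Real.cos (2 * (n : ℝ) * x)))
    rw [abs_of_nonneg hs, e1, e2, Real.cos_two_mul, e3]
    ring
  rw [h1, intervalIntegral.integral_sub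
    (((cont_K al h.le _).const_mul _).intervalIntegrable _ _)
    (((cont_K al h.le _).const_mul _).intervalIntegrable _ _),
    intervalIntegral.integral_const_mul, intervalIntegral.integral_const_mul]
  unfold Kn
  ring

theorem sin_row : SinStmt := by
  intro al hal
  have hK0 := K0_pos al hal
  have hK1 : Kn al 1 = -(al / (al + 2)) * Kn al 0 := by
    have h1 := Kn_rec al hal 0
    simp only [Nat.cast_zero, mul_zero, zero_add, zero_sub] at h1
    have h2 : (0 : ℝ) < al + 2 := by linarith
    field_simp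
    linarith
  have hK2 : Kn al 2 = al * (al - 2) / ((al + 2) * (al + 4)) * Kn al 0 := by
    have h1 := Kn_rec al hal 1
    have h3 : (1 + 1 : ℕ) = 2 := rfl
    rw [h3, hK1] at h1
    have h2 : (0 : ℝ) < al + 2 := by linarith
    have h4 : (0 : ℝ) < al + 4 := by linarith
    have h5 : Kn al 2 * (al + 4) = -(al / (al + 2)) * Kn al 0 * (2 - al) := by
      push_cast at h1
      linarith
    field_simp at h5 ⊢
    linarith
  -- the bound for the higher coefficients
  obtain ⟨q, hq0, hqlt, hq⟩ : ∃ q : ℝ, 0 ≤ q ∧ q < (al / (al + 2)) ^ 2 ∧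
      ∀ n : ℕ, 2 ≤ n → Kn al n ≤ q * Kn al 0 := by
    have h2 : (0 : ℝ) < al + 2 := by linarith
    have h4 : (0 : ℝ) < al + 4 := by linarith
    by_cases hle : al ≤ 2
    · refine ⟨0, le_rfl, by positivity, ?_⟩
      have hneg : ∀ n : ℕ, 1 ≤ n → Kn al n ≤ 0 := by
        intro n hn
        induction n, hn using Nat.le_induction with
        | base =>
          rw [hK1]
          have : 0 ≤ al / (al + 2) := by positivity
          nlinarith
        | succ n hn ih =>
          have h1 := Kn_rec al hal n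
          have hn' : (1 : ℝ) ≤ n := by exact_mod_cast hn
          have h5 : 0 < 2 * (n : ℝ) + 2 + al := by linarith
          have h6 : 0 ≤ 2 * (n : ℝ) - al := by linarith
          have h7 : Kn al n * (2 * n - al) ≤ 0 := mul_nonpos_of_nonpos_of_nonneg ih h6
          rw [← h1] at h7
          by_contra hcon
          push Not at hcon
          have := mul_pos hcon h5
          linarith
      intro n hn
      rw [zero_mul]
      exact hneg n (by omega)
    · push Not at hle
      refine ⟨al * (al - 2) / ((al + 2) * (al + 4)), by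
        have : 0 < al - 2 := by linarith
        positivity, ?_, ?_⟩
      · rw [div_pow, div_lt_div_iff₀ (by positivity) (by positivity)]
        have e : al ^ 2 * ((al + 2) * (al + 4)) - al * (al - 2) * (al + 2) ^ 2 =
            al * (al + 2) * (4 * al + 4) := by ring
        have e2 : 0 < al * (al + 2) * (4 * al + 4) := by positivity
        linarith
      · have habs : ∀ n : ℕ, 2 ≤ n → |Kn al n| ≤ al * (al - 2) / ((al + 2) * (al + 4)) * Kn al 0 := by
          intro n hn
          induction n, hn using Nat.le_induction with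
          | base =>
            rw [hK2, abs_of_nonneg]
            have : 0 < al - 2 := by linarith
            positivity
          | succ n hn ih =>
            have h1 := Kn_rec al hal n
            have hn' : (2 : ℝ) ≤ n := by exact_mod_cast hn
            have h5 : 0 < 2 * (n : ℝ) + 2 + al := by linarith
            have h6 : |2 * (n : ℝ) - al| ≤ 2 * (n : ℝ) + 2 + al := by
              rw [abs_le]
              constructor <;> linarith
            have h7 : |Kn al (n + 1)| * (2 * (n : ℝ) + 2 + al) = |Kn al n| * |2 * (n : ℝ) - al| := by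
              have e := congrArg abs h1
              rw [abs_mul, abs_mul, abs_of_pos h5] at e
              exact e
            have h8 : |Kn al (n + 1)| * (2 * (n : ℝ) + 2 + al) ≤
                |Kn al n| * (2 * (n : ℝ) + 2 + al) := by
              rw [h7]
              exact mul_le_mul_of_nonneg_left h6 (abs_nonneg _)
            exact (le_of_mul_le_mul_right h8 h5).trans ih
        intro n hn
        exact (le_abs_self _).trans (habs n hn)
  set r : ℝ := al / (al + 2) with hr
  have h2 : (0 : ℝ) < al + 2 := by linarith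
  have hr0 : 0 < r := by positivity
  have hr1 : r < 1 := by
    rw [hr, div_lt_one h2]
    linarith
  have hr2 : 0 < 1 - r ^ 2 := by nlinarith
  refine ⟨(1 - q) / (1 - r ^ 2) - 1, ?_, ?_⟩
  · have : 1 < (1 - q) / (1 - r ^ 2) := by
      rw [one_lt_div hr2]
      linarith
    linarith
  · intro k hk
    have e1 : (∫ x in (0 : ℝ)..Real.pi, |Real.sin x| ^ (al + 2)) = (Kn al 0 - Kn al 1) / 2 := by
      rw [← int_sq al hal 1]
      refine intervalIntegral.integral_congr fun x hx => ?_
      show |Real.sin x| ^ (al + 2) = |Real.sin x| ^ al * Real.sin (((1 : ℕ) : ℝ) * x) ^ 2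
      rw [Nat.cast_one, one_mul, ← sq_abs (Real.sin x),
        Real.rpow_add' (abs_nonneg _) (by linarith)]
      norm_num
    have e2 : (∫ x in (0 : ℝ)..Real.pi, |Real.sin x| ^ al * Real.sin (((k : ℝ) + 1) * x) ^ 2) =
        (Kn al 0 - Kn al (k + 1)) / 2 := by
      rw [← int_sq al hal (k + 1)]
      push_cast
      rfl
    rw [e1, e2, hK1]
    have e3 := hq (k + 1) (by omega)
    have e4 : (1 + ((1 - q) / (1 - r ^ 2) - 1)) *
        (2 / (al + 2) * ((Kn al 0 - -r * Kn al 0) / 2)) = (1 - q) / 2 * Kn al 0 := by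
      have e5 : 2 / (al + 2) = 1 - r := by
        rw [hr]
        field_simp
        ring
      rw [e5]
      field_simp
      ring
    rw [e4]
    linarith

end Pool.Agent.BEW.H49
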